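import Mathlib

set_option autoImplicit false

namespace Pool.Agent.Results.MP_93c8fe_an.Yes

open Metric Module Finset
open scoped ENNReal InnerProductSpace

/-- real sequence space -/
abbrev L2 := lp (fun _ : ℕ => ℝ) 2

section
variable {X Y : Type} [NormedAddCommGroup X] [NormedSpace ℝ X] [NormedAddCommGroup Y]
  [NormedSpace ℝ Y]

/-- Gelfand numbers -/
noncomputable def c (n : ℕ) (S : X →L[ℝ] Y) (F : Set X) : ℝ≥0∞ :=
  ⨅ L : Fin n → X →L[ℝ] ℝ, ⨆ f ∈ F, ⨆ g ∈ F, ⨆ _ : ∀ k, L k f = L k g, ‖S f - S g‖ₑ / 2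

/-- factorizations through a space `H` -/
noncomputable def hh (H : Type) [NormedAddCommGroup H] [NormedSpace ℝ H] (n : ℕ) (S : X →L[ℝ] Y)
    (F : Set X) : ℝ≥0∞ :=
  ⨆ (B : Y →L[ℝ] H) (_ : ‖B‖ ≤ 1) (A : H →L[ℝ] X) (x ∈ F)
    (_ : ∀ z ∈ closedBall (0 : H) 1, A z + x ∈ F), c n (B ∘L S ∘L A) (closedBall 0 1)

/-- Hilbert numbers -/
noncomputable def h (n : ℕ) (S : X →L[ℝ] Y) (F : Set X) : ℝ≥0∞ := hh L2 n S F

theorem c_ge (n : ℕ) (S : X →L[ℝ] Y) (r : ℝ)
    (H : ∀ L : Fin n → X →L[ℝ] ℝ, ∃ v, ‖v‖ ≤ 1 ∧ (∀ k, L k v = 0) ∧ r ≤ ‖S v‖) :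
    ENNReal.ofReal r ≤ c n S (closedBall 0 1) := le_iInf fun L => by
  obtain ⟨v, a, b, d⟩ := H L
  refine le_iSup₂_of_le v (by simpa using a) (le_iSup₂_of_le (-v) (by simpa using a)
    (le_iSup_of_le (by simp [b]) ?_))
  rw [map_neg, sub_neg_eq_add, ← two_smul ℝ, enorm_smul, ENNReal.le_div_iff_mul_le (by simp) (by simp),
    mul_comm, ← ofReal_norm (S v)]
  exact mul_le_mul' (by simp [← ofReal_norm]) (ENNReal.ofReal_le_ofReal d)

theorem c_lt (n : ℕ) (S : X →L[ℝ] Y) (r : ℝ) (r0 : 0 ≤ r)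
    (H : ENNReal.ofReal r < c n S (closedBall 0 1))
    (L : Fin n → X →L[ℝ] ℝ) : ∃ v, ‖v‖ ≤ 1 ∧ (∀ k, L k v = 0) ∧ r < ‖S v‖ := by
  have := H.trans_le (iInf_le _ L)
  simp only [lt_iSup_iff, mem_closedBall_zero_iff] at this
  obtain ⟨f, a, g, b, d, e⟩ := this
  rw [ENNReal.lt_div_iff_mul_lt (by simp) (by simp), ← ofReal_norm,
    ← ENNReal.ofReal_ofNat, ← ENNReal.ofReal_mul r0, ENNReal.ofReal_lt_ofReal_iff_of_nonneg
      (by positivity)] at e
  refine ⟨(1 / 2 : ℝ) • (f - g), ?_, fun k => by simp [d k], ?_⟩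
  · have := norm_sub_le f g
    rw [norm_smul, Real.norm_of_nonneg (by norm_num)]; linarith
  · rw [map_smul, map_sub, norm_smul, Real.norm_of_nonneg (by norm_num)]; linarith

theorem h_le (n : ℕ) (S : X →L[ℝ] Y) : h n S (closedBall 0 1) ≤ ‖S‖ₑ := by
  simp only [h, hh, iSup_le_iff]
  refine fun B hB A x _ hA => iInf_le_of_le 0 ?_
  simp only [iSup_le_iff]
  intro f hf g hg _
  have a := mem_closedBall_zero_iff.1 (hA f hf)
  have b := mem_closedBall_zero_iff.1 (hA g hg)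
  have d := norm_sub_le (A f + x) (A g + x)
  rw [ENNReal.div_le_iff (by simp) (by simp), ← ofReal_norm, ← ofReal_norm]
  refine (ENNReal.ofReal_le_ofReal (q := ‖S‖ * 2) ?_).trans_eq
    (by rw [ENNReal.ofReal_mul (norm_nonneg _), ENNReal.ofReal_ofNat])
  rw [show (B ∘L S ∘L A) f - (B ∘L S ∘L A) g = B (S (A f + x - (A g + x))) by simp]
  refine (B.le_of_opNorm_le hB _).trans ?_
  rw [one_mul]
  exact S.le_opNorm_of_le (by linarith)

end

theorem sv {E : Type} [NormedAddCommGroup E] [InnerProductSpace ℝ E] [FiniteDimensional ℝ E]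
    (T : E →ₗ[ℝ] E) (k : ℕ) (hk : k < finrank ℝ E) (L : Fin k → E →ₗ[ℝ] ℝ) :
    ∃ v, ‖v‖ = 1 ∧ (∀ i, L i v = 0) ∧ T.singularValues k ≤ ‖T v‖ := by
  have s := T.isSymmetric_adjoint_comp_self
  let b := s.eigenvectorBasis rfl
  let M : {j : Fin (finrank ℝ E) // j ≠ ⟨k, hk⟩} → E →ₗ[ℝ] ℝ := fun j =>
    if h : j.1.1 < k then L ⟨_, h⟩ else innerₛₗ ℝ (b j.1)
  obtain ⟨w, hw, w0⟩ := (Submodule.ne_bot_iff _).1
    (LinearMap.ker_ne_bot_of_finrank_lt (f := LinearMap.pi M) (by simp; omega))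
  have hw : ∀ j, M j (‖w‖⁻¹ • w) = 0 := fun j => by
    rw [map_smul, show M j w = 0 from congrFun hw j, smul_zero]
  have v1 : ‖‖w‖⁻¹ • w‖ = 1 := norm_smul_inv_norm (𝕜 := ℝ) w0
  generalize ‖w‖⁻¹ • w = v at hw v1
  refine ⟨v, v1, fun i => by
    simpa [M] using hw ⟨⟨i, i.2.trans hk⟩, fun h => i.2.ne (congrArg Fin.val h)⟩,
    le_of_sq_le_sq ?_ (norm_nonneg _)⟩
  rw [← real_inner_self_eq_norm_sq, ← LinearMap.adjoint_inner_right, ← b.sum_inner_mul_inner,
    ← mul_one (_ ^ 2), ← one_pow 2, ← v1, ← real_inner_self_eq_norm_sq, ← b.sum_inner_mul_inner,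
    mul_sum]
  refine sum_le_sum fun j _ => ?_
  have := s.eigenvectorBasis_apply_self_apply rfl v j
  rw [OrthonormalBasis.repr_apply_apply, OrthonormalBasis.repr_apply_apply] at this
  erw [this]
  rw [real_inner_comm, ← T.sq_singularValues_fin rfl]
  by_cases hj : k < j.1
  · have : ⟪b j, v⟫_ℝ = 0 := by
      simpa [M, hj.not_gt] using hw ⟨j, fun h => hj.ne' (congrArg Fin.val h)⟩
    simp [this]
  · have := pow_le_pow_left₀ (T.singularValues_nonneg _) (T.singularValues_antitone (not_lt.1 hj)) 2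
    simp only [RCLike.ofReal_real_eq_id, id]
    nlinarith [mul_self_nonneg ⟪b j, v⟫_ℝ]

variable {X Y : Type} [NormedAddCommGroup X] [InnerProductSpace ℝ X] [CompleteSpace X]
  [NormedAddCommGroup Y] [NormedSpace ℝ Y]

theorem gs (n : ℕ) (S : X →L[ℝ] Y) (r : ℝ) (r0 : 0 ≤ r)
    (H : ENNReal.ofReal r < c n S (closedBall 0 1)) (m : ℕ) (hm : m ≤ n + 1) :
    ∃ (x : ℕ → X) (φ : ℕ → Y →L[ℝ] ℝ), ∀ i < m, ‖x i‖ = 1 ∧ ‖φ i‖ ≤ 1 ∧ r < φ i (S (x i)) ∧
      (∀ j < i, ⟪x j, x i⟫_ℝ = 0) ∧ ∀ z, (∀ j ≤ i, ⟪x j, z⟫_ℝ = 0) → φ i (S z) = 0 := by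
  induction m with
  | zero => exact ⟨0, 0, by simp⟩
  | succ m ih =>
    obtain ⟨x, φ, a⟩ := ih (by omega)
    obtain ⟨v, v1, v2, v3⟩ := c_lt n S r r0 H fun k => if k.1 < m then innerSL ℝ (x k) else 0
    let K := (⨆ j : Set.Iio m, ℝ ∙ x j)ᗮ
    have hK : ∀ z, z ∈ K ↔ ∀ j < m, ⟪x j, z⟫_ℝ = 0 := fun z => by
      simp [K, ← Submodule.iInf_orthogonal, Submodule.mem_orthogonal_singleton_iff_inner_right]
    obtain ⟨ψ, p1, p2⟩ := exists_dual_vector'' ℝ (S v)
    let w : K := (InnerProductSpace.toDual ℝ K).symm (ψ ∘L S ∘L K.subtypeL)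
    have hw : ∀ z ∈ K, ⟪w.1, z⟫_ℝ = ψ (S z) := fun z hz =>
      InnerProductSpace.toDual_symm_apply (x := (⟨z, hz⟩ : K))
    have w1 : r < ‖w.1‖ := by
      have := real_inner_le_norm w.1 v
      rw [hw v ((hK v).2 fun j hj => by simpa [hj] using v2 ⟨j, by omega⟩), p2] at this
      have : ‖S v‖ ≤ ‖w.1‖ * ‖v‖ := this
      nlinarith [norm_nonneg w.1]
    have w0 := r0.trans_lt w1
    have yK : ‖w.1‖⁻¹ • w.1 ∈ K := K.smul_mem _ w.2
    refine ⟨Function.update x m (‖w.1‖⁻¹ • w.1), Function.update φ m ψ, fun i hi => ?_⟩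
    rcases (Nat.lt_succ_iff.1 hi).lt_or_eq with hi | rfl
    · obtain ⟨a1, a2, a3, a4, a5⟩ := a i hi
      simp only [Function.update_of_ne hi.ne]
      exact ⟨a1, a2, a3, fun j hj => by rw [Function.update_of_ne (by omega), a4 j hj],
        fun z hz => a5 z fun j hj => by simpa [show j ≠ m by omega] using hz j hj⟩
    · simp only [Function.update_self]
      refine ⟨norm_smul_inv_norm (𝕜 := ℝ) (norm_pos_iff.1 w0), p1, ?_,
        fun j hj => by rw [Function.update_of_ne hj.ne, (hK _).1 yK j hj], fun z hz => ?_⟩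
      · rw [← hw _ yK, inner_smul_right, real_inner_self_eq_norm_sq]
        exact w1.trans_eq (by field_simp)
      · have := hz i le_rfl
        rw [Function.update_self, real_inner_smul_left] at this
        rw [← hw z ((hK z).2 fun j hj => by simpa [hj.ne] using hz j hj.le)]
        simpa [w0.ne'] using this

theorem iso {N : ℕ} (x : Fin N → X) (hx : Orthonormal ℝ x) :
    ∃ J : EuclideanSpace ℝ (Fin N) →ₗᵢ[ℝ] X, ∀ j, J (EuclideanSpace.basisFun _ ℝ j) = x j :=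
  ⟨((EuclideanSpace.basisFun _ ℝ).toBasis.constr ℝ x).isometryOfOrthonormal
    (v := (EuclideanSpace.basisFun _ ℝ).toBasis) (EuclideanSpace.basisFun _ ℝ).orthonormal
    (by convert hx; ext j; exact Basis.constr_basis _ _ _ j), fun j => Basis.constr_basis _ _ _ j⟩

theorem result {X Y : Type} [NormedAddCommGroup X] [InnerProductSpace ℝ X] [CompleteSpace X]
    [NormedAddCommGroup Y] [NormedSpace ℝ Y] (S : X →L[ℝ] Y) (n : ℕ) (hn : 1 ≤ n) :
    (∀ k, h k S (closedBall 0 1) < ⊤) ∧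
    c (n - 1) S (closedBall 0 1) ≤
      (n : ℝ≥0∞) ^ (1 / 2 : ℝ) * (∏ k ∈ range n, h k S (closedBall 0 1)) ^ (1 / n : ℝ) := by
  refine ⟨fun k => (h_le k S).trans_lt enorm_lt_top, le_of_forall_lt_imp_le_of_dense fun r hr => ?_⟩
  lift r to NNReal using hr.ne_top
  rw [← ENNReal.ofReal_coe_nnreal] at hr ⊢
  have r0 := r.coe_nonneg
  generalize (r : ℝ) = r at r0 hr
  obtain ⟨x, φ, a⟩ := gs _ S r r0 hr n (by omega)
  have o : ∀ i j : Fin n, i < j → ⟪x i, x j⟫_ℝ = 0 := fun i j h => (a j j.2).2.2.2.1 i h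
  obtain ⟨J, hJ⟩ := iso (fun i : Fin n => x i) ⟨fun i => (a i i.2).1, fun i j h =>
    h.lt_or_gt.elim (o i j) fun h => (real_inner_comm _ _).trans (o j i h)⟩
  obtain ⟨I, -⟩ := iso (fun i : Fin n => (lp.single 2 i 1 : L2)) ⟨fun i => by
    simp [lp.norm_single], fun i j h => by simp [lp.inner_single_left, Fin.val_inj, h]⟩
  have n0 : (0 : ℝ) < n := by exact_mod_cast hn
  let B : Y →L[ℝ] EuclideanSpace ℝ (Fin n) := (√n)⁻¹ •
    (EuclideanSpace.equiv (Fin n) ℝ).symm.toContinuousLinearMap ∘L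
    ContinuousLinearMap.pi fun i : Fin n => φ i
  have hB : ∀ y i, B y i = (√n)⁻¹ * φ i y := fun _ _ => rfl
  have B1 : ‖B‖ ≤ 1 := B.opNorm_le_bound zero_le_one fun y => le_of_sq_le_sq (by
    rw [EuclideanSpace.real_norm_sq_eq]
    refine (sum_le_card_nsmul _ _ ((n : ℝ)⁻¹ * ‖y‖ ^ 2) fun i _ => ?_).trans_eq (by simp [field])
    rw [hB, mul_pow, inv_pow, Real.sq_sqrt n0.le, ← sq_abs]
    gcongr
    simpa using (φ i).le_of_opNorm_le (a i i.2).2.1 y) (by positivity)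
  let T := B ∘L S ∘L J.toContinuousLinearMap
  have d : ((√n)⁻¹ * r) ^ n ≤ ∏ k ∈ range n, T.toLinearMap.singularValues k := by
    have := T.toLinearMap.normDet_eq_prod_singularValues
    rw [finrank_euclideanSpace_fin, LinearMap.normDet_eq_abs_det,
      ← LinearMap.det_toMatrix (EuclideanSpace.basisFun _ ℝ).toBasis] at this
    have e : ∀ i j, LinearMap.toMatrix (EuclideanSpace.basisFun _ ℝ).toBasis
        (EuclideanSpace.basisFun _ ℝ).toBasis T.toLinearMap i j = (√n)⁻¹ * φ i (S (x j)) :=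
      fun i j => by rw [LinearMap.toMatrix_apply, ← hJ]; rfl
    rw [← this, Matrix.det_of_isLowerTriangular _ fun i j (h : i < j) => by
      rw [e, (a i i.2).2.2.2.2 _ fun k hk => o ⟨k, by omega⟩ j (by exact hk.trans_lt h), mul_zero]]
    refine le_trans ?_ (le_abs_self _)
    rw [← Fin.prod_const]
    refine prod_le_prod (fun _ _ => by positivity) fun i _ => ?_
    rw [e]
    gcongr
    exact (a i i.2).2.2.1.le
  have e : ∀ k ∈ range n, ENNReal.ofReal (T.toLinearMap.singularValues k) ≤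
      h k S (closedBall 0 1) := fun k hk => by
    let i := I.toContinuousLinearMap
    have i1 : ‖i‖ ≤ 1 := I.norm_toContinuousLinearMap_le
    refine le_iSup₂_of_le (i ∘L B) ((i.opNorm_comp_le B).trans (mul_le_one₀ i1 (norm_nonneg _) B1))
      (le_iSup_of_le (J.toContinuousLinearMap ∘L i.adjoint) (le_iSup₂_of_le 0 (by simp)
        (le_iSup_of_le (fun z hz => ?_) (c_ge _ _ _ fun L => ?_))))
    · simpa using (i.adjoint.le_of_opNorm_le (by simpa using i1) z).trans (by simpa using hz)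
    · obtain ⟨v, v1, v2, v3⟩ := sv T.toLinearMap k (by simpa using hk) fun j => (L j ∘L i).toLinearMap
      refine ⟨I v, by simp [v1], v2, v3.trans_eq ?_⟩
      have : i.adjoint (I v) = v := congr($(I.adjoint_comp_self) v)
      simp [this, i, T]
  have f := (ENNReal.ofReal_le_ofReal d).trans ((ENNReal.ofReal_prod_of_nonneg fun k _ =>
    T.toLinearMap.singularValues_nonneg k).trans_le (prod_le_prod' e))
  have := ENNReal.rpow_le_rpow f (show 0 ≤ (1 / n : ℝ) by positivity)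
  rw [ENNReal.ofReal_pow (by positivity), one_div, ENNReal.pow_rpow_inv_natCast (by omega)] at this
  rw [one_div (n : ℝ)]
  refine le_trans (le_of_eq ?_) (mul_le_mul_right this _)
  rw [← ENNReal.ofReal_natCast, ENNReal.ofReal_rpow_of_nonneg n0.le (by norm_num),
    ← ENNReal.ofReal_mul (by positivity), ← Real.sqrt_eq_rpow]
  congr 1
  field_simp

end Pool.Agent.Results.MP_93c8fe_an.Yes
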